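import Pool.Agent.Y506.PV.Stm

/-!
# Fibre lengths of the projection of a convex body (S_PRJ), project PV of helper506
-/

set_option autoImplicit false

namespace Pool.Agent.Y941.PV

open MeasureTheory Set Filter Topology
open scoped ENNReal InnerProductSpace
open Pool.Agent.W695.KH (Eu)
open Pool.Agent.Y506.PV (drp ind ConcS S_PRJ)

/-- a coordinate in front -/
noncomputable def E (n : ℕ) : ℝ × Eu (Fin n) ≃ᵐ Eu (Fin (n + 1)) :=
  (((MeasurableEquiv.refl ℝ).prodCongr (MeasurableEquiv.toLp 2 (Fin n → ℝ)).symm).trans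
    (MeasurableEquiv.piFinSuccAbove (fun _ => ℝ) 0).symm).trans
    (MeasurableEquiv.toLp 2 (Fin (n + 1) → ℝ))

lemma E_zero {n : ℕ} (p : ℝ × Eu (Fin n)) : E n p 0 = p.1 := rfl

lemma E_succ {n : ℕ} (p : ℝ × Eu (Fin n)) (i : Fin n) : E n p i.succ = p.2 i := rfl

lemma drp_E {n : ℕ} (p : ℝ × Eu (Fin n)) : drp n (E n p) = p.2 := by
  ext i
  rfl

lemma E_eq {n : ℕ} (z : Eu (Fin (n + 1))) : E n (z 0, drp n z) = z := by
  ext i
  refine Fin.cases ?_ (fun i => ?_) i
  · rfl
  · rfl

lemma E_comb {n : ℕ} (a b s t : ℝ) (x y : Eu (Fin n)) :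
    E n (a * s + b * t, a • x + b • y) = a • E n (s, x) + b • E n (t, y) := by
  ext i
  refine Fin.cases ?_ (fun i => ?_) i
  · rfl
  · rfl

lemma E_mp (n : ℕ) : MeasurePreserving (E n) volume volume := by
  have h1 : MeasurePreserving ((MeasurableEquiv.refl ℝ).prodCongr
      (MeasurableEquiv.toLp 2 (Fin n → ℝ)).symm) (volume : Measure (ℝ × Eu (Fin n))) volume :=
    (MeasurePreserving.id volume).prod (PiLp.volume_preserving_ofLp (Fin n))
  have h2 : MeasurePreserving (MeasurableEquiv.piFinSuccAbove (fun _ : Fin (n + 1) => ℝ) 0).symm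
      volume volume := (volume_preserving_piFinSuccAbove (fun _ : Fin (n + 1) => ℝ) 0).symm _
  exact ((PiLp.volume_preserving_toLp (Fin (n + 1))).comp h2).comp h1

/-- the fibres -/
def fib {n : ℕ} (K : Set (Eu (Fin (n + 1)))) (x : Eu (Fin n)) : Set ℝ := {t | E n (t, x) ∈ K}

lemma fib_convex {n : ℕ} {K : Set (Eu (Fin (n + 1)))} (hK : Convex ℝ K) (x : Eu (Fin n)) :
    Convex ℝ (fib K x) := by
  intro s hs t ht a b ha hb hab
  have := hK hs ht ha hb hab
  rw [← E_comb, ← add_smul, hab, one_smul] at this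
  exact this

lemma cont_fib {n : ℕ} (x : Eu (Fin n)) : Continuous fun t : ℝ => E n (t, x) := by
  have : ∀ t : ℝ, E n (t, x) = t • E n (1, 0) + (1 : ℝ) • E n (0, x) := by
    intro t
    rw [← E_comb]
    simp
  rw [show (fun t : ℝ => E n (t, x)) = fun t : ℝ => t • E n (1, 0) + (1 : ℝ) • E n (0, x) from
    funext this]
  fun_prop

lemma fib_bdd {n : ℕ} {K : Set (Eu (Fin (n + 1)))} (R : ℝ) (hR : ∀ z ∈ K, ‖z‖ ≤ R)
    (x : Eu (Fin n)) : fib K x ⊆ Icc (-R) R := by
  intro t ht
  have h1 : |t| ≤ R := by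
    have h2 : ‖E n (t, x) 0‖ ≤ ‖E n (t, x)‖ := PiLp.norm_apply_le _ _
    rw [E_zero] at h2
    exact h2.trans (hR _ ht)
  exact abs_le.mp h1

theorem prj : S_PRJ := by
  intro n K hKc hKv hKi
  have hKm : MeasurableSet K := hKc.isClosed.measurableSet
  obtain ⟨R, hR⟩ := hKc.isBounded.exists_norm_le
  have hfc : ∀ x, IsCompact (fib K x) := by
    intro x
    refine Metric.isCompact_of_isClosed_isBounded (hKc.isClosed.preimage (cont_fib x)) ?_
    exact Metric.isBounded_Icc (-R) R |>.subset (fib_bdd R hR x)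
  have hfin : ∀ x, volume (fib K x) ≠ ⊤ := fun x => (hfc x).measure_lt_top.ne
  have hfm : ∀ x, MeasurableSet (fib K x) := fun x => (hfc x).isClosed.measurableSet
  refine ⟨fun x => volume.real (fib K x), ?_, fun x => measureReal_nonneg, ?_, ?_, ⟨2 * R, ?_⟩, ?_⟩
  · have h1 : MeasurableSet (E n ⁻¹' K) := (E n).measurable hKm
    have h2 : Measurable fun x : Eu (Fin n) => volume ((fun t : ℝ => (t, x)) ⁻¹' (E n ⁻¹' K)) :=
      measurable_measure_prodMk_right h1
    exact h2.ennreal_toReal
  · intro x hx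
    have : fib K x = ∅ := by
      rw [eq_empty_iff_forall_notMem]
      intro t ht
      exact hx ⟨_, ht, drp_E _⟩
    simp only [this, measureReal_empty]
  · intro x y t ht0 ht1 hx hy
    have hmem : ∀ x : Eu (Fin n), 0 < ind (drp n '' K) x → (fib K x).Nonempty := by
      intro x hx
      have : x ∈ drp n '' K := by
        by_contra hc
        unfold ind at hx
        rw [indicator_of_notMem hc] at hx
        exact lt_irrefl _ hx
      obtain ⟨z, hz, rfl⟩ := this
      refine ⟨z 0, ?_⟩
      show E n (z 0, drp n z) ∈ K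
      rwa [E_eq]
    have hA := hmem x hx
    have hB := hmem y hy
    have hend : ∀ x : Eu (Fin n), (fib K x).Nonempty → ∃ a b : ℝ, a ∈ fib K x ∧ b ∈ fib K x ∧
        a ≤ b ∧ volume.real (fib K x) ≤ b - a := by
      intro x hx
      have hle : sInf (fib K x) ≤ sSup (fib K x) := by
        obtain ⟨t0, ht0⟩ := hx
        exact (csInf_le (hfc x).bddBelow ht0).trans (le_csSup (hfc x).bddAbove ht0)
      refine ⟨sInf (fib K x), sSup (fib K x), (hfc x).sInf_mem hx, (hfc x).sSup_mem hx, hle, ?_⟩
      · have h1 : fib K x ⊆ Icc (sInf (fib K x)) (sSup (fib K x)) := fun t ht =>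
          ⟨csInf_le (hfc x).bddBelow ht, le_csSup (hfc x).bddAbove ht⟩
        have h2 := measureReal_mono (μ := volume) h1 (by
          rw [Real.volume_Icc]; exact ENNReal.ofReal_ne_top)
        rwa [Real.volume_real_Icc_of_le hle] at h2
    obtain ⟨a1, a2, ha1, ha2, ha, ha'⟩ := hend x hA
    obtain ⟨b1, b2, hb1, hb2, hb, hb'⟩ := hend y hB
    have hc1 : (1 - t) * a1 + t * b1 ∈ fib K ((1 - t) • x + t • y) := by
      show E n (_, _) ∈ K
      rw [E_comb]
      exact hKv ha1 hb1 (by linarith) ht0.le (by ring)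
    have hc2 : (1 - t) * a2 + t * b2 ∈ fib K ((1 - t) • x + t • y) := by
      show E n (_, _) ∈ K
      rw [E_comb]
      exact hKv ha2 hb2 (by linarith) ht0.le (by ring)
    have hc : (1 - t) * a1 + t * b1 ≤ (1 - t) * a2 + t * b2 := by
      have : 0 ≤ 1 - t := by linarith
      nlinarith
    have hsub : Icc ((1 - t) * a1 + t * b1) ((1 - t) * a2 + t * b2) ⊆
        fib K ((1 - t) • x + t • y) :=
      (fib_convex hKv _).ordConnected.out hc1 hc2
    have h3 := measureReal_mono (μ := volume) hsub (hfin _)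
    rw [Real.volume_real_Icc_of_le hc] at h3
    have h1t : 0 ≤ 1 - t := by linarith
    calc (1 - t) * volume.real (fib K x) + t * volume.real (fib K y)
        ≤ (1 - t) * (a2 - a1) + t * (b2 - b1) := by gcongr
      _ = (1 - t) * a2 + t * b2 - ((1 - t) * a1 + t * b1) := by ring
      _ ≤ _ := h3
  · intro x
    have hR0 : 0 ≤ R := by
      obtain ⟨z, hz⟩ := hKi
      exact (norm_nonneg z).trans (hR z (interior_subset hz))
    have h2 := measureReal_mono (μ := volume) (fib_bdd R hR x) (by
          rw [Real.volume_Icc]; exact ENNReal.ofReal_ne_top)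
    rw [Real.volume_real_Icc_of_le (by linarith)] at h2
    show volume.real (fib K x) ≤ 2 * R
    linarith
  · intro F hF
    have hcd : Continuous (drp n) := (drp n).continuous_of_finiteDimensional
    have hi : IntegrableOn (fun z => F (drp n z)) K volume :=
      (hF.comp hcd).continuousOn.integrableOn_compact hKc
    have hi2 : Integrable (K.indicator fun z => F (drp n z)) volume :=
      hi.integrable_indicator hKm
    have hi3 : Integrable (fun p : ℝ × Eu (Fin n) => (K.indicator fun z => F (drp n z)) (E n p))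
        (volume.prod volume) := by
      rw [← Measure.volume_eq_prod]
      exact (E_mp n).integrable_comp_emb (E n).measurableEmbedding |>.mpr hi2
    rw [← integral_indicator hKm, ← (E_mp n).integral_comp' (K.indicator fun z => F (drp n z)),
      Measure.volume_eq_prod, integral_prod_symm _ hi3]
    refine integral_congr_ae (Eventually.of_forall fun x => ?_)
    show ∫ t : ℝ, K.indicator (fun z => F (drp n z)) (E n (t, x)) = F x * volume.real (fib K x)
    have h1 : (fun t : ℝ => K.indicator (fun z => F (drp n z)) (E n (t, x))) =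
        (fib K x).indicator fun _ => F x := by
      funext t
      by_cases ht : t ∈ fib K x
      · rw [indicator_of_mem ht, indicator_of_mem (show E n (t, x) ∈ K from ht), drp_E]
      · rw [indicator_of_notMem ht, indicator_of_notMem (show E n (t, x) ∉ K from ht)]
    rw [h1, integral_indicator_const _ (hfm x), smul_eq_mul, mul_comm]

end Pool.Agent.Y941.PV
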